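import Pool.Agent.Helper83.EIN2.Goals

/-!
Project EIN2, packet REG: regular limit points.
-/

set_option autoImplicit false

namespace Pool.Agent.Helper20.EIN2

open Filter Topology Set Pool.Agent.Helper83.EIN Pool.Agent.Helper83.EIN2

theorem fr_cd : ContDiff ℝ 1 (fun z : (ℝ × ℝ × ℝ) × (Fin 6 → ℝ) ↦
    FR z.1.1 z.1.2.1 z.1.2.2 z.2) := by
  unfold FR
  rw [contDiff_pi]
  intro i
  fin_cases i <;> simp <;> fun_prop

theorem fr_iff {a β t : ℝ} {v : Fin 6 → ℝ} (hv : ∀ i, 0 < v i) :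
    FR a β t v = 0 ↔ Sol2 a β t v := by
  have h0 := hv 0
  have h1 := hv 1
  have h2 := hv 2
  have h3 := hv 3
  have h4 := hv 4
  have h5 := hv 5
  have e0 : FR a β t v 0 = 2 * v 2 * v 4 * v 3 * v 5 *
      (v 0 - (1 - (1 - t) * β * cs (v 2) (v 4) (v 0) - (1 - t) * (1 - β) * cs (v 3) (v 5) (v 0))) := by
    simp only [FR, cs, Matrix.cons_val]
    field_simp
    ring
  have e1 : FR a β t v 1 = 2 * v 2 * v 3 * v 4 * v 5 *
      (v 1 - (1 - t * a * cs (v 2) (v 3) (v 1) - t * (1 - a) * cs (v 4) (v 5) (v 1))) := by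
    simp only [FR, cs, Matrix.cons_val]
    field_simp
    ring
  have e2 : FR a β t v 2 = 2 * v 0 * v 4 * v 1 * v 3 *
      (v 2 - (1 - t * (1 - a) * cs (v 0) (v 4) (v 2) - (1 - t) * (1 - β) * cs (v 1) (v 3) (v 2))) := by
    simp only [FR, cs, Matrix.cons_val]
    field_simp
    ring
  have e3 : FR a β t v 3 = 2 * v 0 * v 5 * v 1 * v 2 *
      (v 3 - (1 - t * (1 - a) * cs (v 0) (v 5) (v 3) - (1 - t) * β * cs (v 1) (v 2) (v 3))) := by
    simp only [FR, cs, Matrix.cons_val]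
    field_simp
    ring
  have e4 : FR a β t v 4 = 2 * v 0 * v 2 * v 1 * v 5 *
      (v 4 - (1 - t * a * cs (v 0) (v 2) (v 4) - (1 - t) * (1 - β) * cs (v 1) (v 5) (v 4))) := by
    simp only [FR, cs, Matrix.cons_val]
    field_simp
    ring
  have e5 : FR a β t v 5 = 2 * v 0 * v 3 * v 1 * v 4 *
      (v 5 - (1 - t * a * cs (v 0) (v 3) (v 5) - (1 - t) * β * cs (v 1) (v 4) (v 5))) := by
    simp only [FR, cs, Matrix.cons_val]
    field_simp
    ring
  constructor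
  · intro h
    refine ⟨hv, ?_, ?_, ?_, ?_, ?_, ?_⟩
    · rw [h, Pi.zero_apply, eq_comm, mul_eq_zero] at e0
      exact sub_eq_zero.1 (e0.resolve_left (by positivity))
    · rw [h, Pi.zero_apply, eq_comm, mul_eq_zero] at e1
      exact sub_eq_zero.1 (e1.resolve_left (by positivity))
    · rw [h, Pi.zero_apply, eq_comm, mul_eq_zero] at e2
      exact sub_eq_zero.1 (e2.resolve_left (by positivity))
    · rw [h, Pi.zero_apply, eq_comm, mul_eq_zero] at e3
      exact sub_eq_zero.1 (e3.resolve_left (by positivity))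
    · rw [h, Pi.zero_apply, eq_comm, mul_eq_zero] at e4
      exact sub_eq_zero.1 (e4.resolve_left (by positivity))
    · rw [h, Pi.zero_apply, eq_comm, mul_eq_zero] at e5
      exact sub_eq_zero.1 (e5.resolve_left (by positivity))
  · intro h
    funext i
    fin_cases i
    · change FR a β t v 0 = 0
      rw [e0, sub_eq_zero.2 h.e0, mul_zero]
    · change FR a β t v 1 = 0
      rw [e1, sub_eq_zero.2 h.e1, mul_zero]
    · change FR a β t v 2 = 0
      rw [e2, sub_eq_zero.2 h.e2, mul_zero]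
    · change FR a β t v 3 = 0
      rw [e3, sub_eq_zero.2 h.e3, mul_zero]
    · change FR a β t v 4 = 0
      rw [e4, sub_eq_zero.2 h.e4, mul_zero]
    · change FR a β t v 5 = 0
      rw [e5, sub_eq_zero.2 h.e5, mul_zero]

theorem reg : Pool.Agent.Helper83.EIN2.REG := by
  intro a₀ β₀ z hz h0 hD δ₀ hδ₀
  obtain ⟨G, hG1, hG2, hG3⟩ := Pool.Agent.Helper83.EINU.local_zero
    (fun τ : ℝ × ℝ × ℝ ↦ FR τ.1 τ.2.1 τ.2.2) fr_cd (a₀, β₀, 0) z h0 hD
  obtain ⟨r, hr, hG3⟩ := Metric.eventually_nhds_iff.1 hG3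
  -- the smallest z i
  obtain ⟨m, hm, hmz⟩ : ∃ m > 0, ∀ i, m ≤ z i := by
    refine ⟨Finset.univ.inf' Finset.univ_nonempty z, ?_, fun i ↦
      Finset.inf'_le _ (Finset.mem_univ i)⟩
    rw [gt_iff_lt, Finset.lt_inf'_iff]
    exact fun i _ ↦ hz i
  set δ := min δ₀ (min m r) with hδ
  have hδp : 0 < δ := lt_min hδ₀ (lt_min hm hr)
  have hδm : δ ≤ m := (min_le_right _ _).trans (min_le_left _ _)
  have hδr : δ ≤ r := (min_le_right _ _).trans (min_le_right _ _)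
  have hG4 : ∀ᶠ τ in 𝓝 ((a₀, β₀, 0) : ℝ × ℝ × ℝ), dist (G τ) z < δ :=
    hG1.eventually (Metric.ball_mem_nhds z hδp)
  obtain ⟨ε₁, hε₁, hG5⟩ := Metric.eventually_nhds_iff.1 (hG4.and hG2)
  refine ⟨δ, hδp, min_le_left _ _, min ε₁ δ, lt_min hε₁ hδp, fun a β t hN ↦ ?_⟩
  have hN1 := hN.mono (min_le_left ε₁ δ)
  have hN2 := hN.mono (min_le_right ε₁ δ)
  have hd : ∀ ε, Near2 a₀ β₀ ε a β t → dist (a, β, t) (a₀, β₀, (0 : ℝ)) < ε := by
    intro ε h
    rw [Prod.dist_eq, Prod.dist_eq]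
    simp only [Real.dist_eq, sub_zero]
    refine max_lt h.ha (max_lt h.hb ?_)
    rw [abs_of_pos h.t0]
    exact h.t1
  obtain ⟨h1, h2⟩ := hG5 (hd _ hN1)
  have hpos : ∀ v : Fin 6 → ℝ, (∀ i, |v i - z i| < δ) → ∀ i, 0 < v i := by
    intro v hv i
    have := (abs_lt.1 (hv i)).1
    have := hmz i
    linarith
  have hclose : ∀ i, |G (a, β, t) i - z i| < δ := fun i ↦
    (dist_pi_lt_iff hδp).1 h1 i
  refine ⟨G (a, β, t), ⟨hclose, (fr_iff (hpos _ hclose)).1 h2⟩, ?_⟩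
  rintro v ⟨hv, hs⟩
  have h3 := (fr_iff (hpos v hv)).2 hs
  refine hG3 (y := ((a, β, t), v)) ?_ h3
  rw [Prod.dist_eq]
  refine max_lt ((hd _ hN2).trans_le hδr) (lt_of_lt_of_le ?_ hδr)
  rw [dist_pi_lt_iff hδp]
  exact hv

end Pool.Agent.Helper20.EIN2
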